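import Pool.Agent.H15.Hx.Defs
import Pool.Agent.H25.HX.ExistC

/-! G1: existence of the discrete solution for given forces. -/

set_option autoImplicit false

open MeasureTheory Set Filter Topology
open scoped RealInnerProductSpace
open Pool.Agent.H25.HX (E g Tst H10)

noncomputable section

namespace Pool.Agent.H15.Hx

/-- state of the scheme -/
structure GSt (P : Par) (Ω : Set (E P.N)) where
  u : E P.N → ℝ
  Du : E P.N → E P.N
  z : E P.N → ℝ
  Dz : E P.N → E P.N
  L : E P.N → ℝ
  hz : H10 Ω z Dz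
  hg : MemLp (fun x => g P.p (z x)) 2 volume
  hL : MemLp L 2 volume
  hDm : MemLp Du 2 volume
  hDu : ∀ (ψ : E P.N → ℝ) (Ψ : E P.N → E P.N), H10 Ω ψ Ψ →
    ∫ x, ⟪Du x, Ψ x⟫ = ∫ x, L x * ψ x

/-- the zero state -/
def GSt.zero (P : Par) (Ω : Set (E P.N)) : GSt P Ω where
  u := fun _ => 0
  Du := fun _ => 0
  z := fun _ => 0
  Dz := fun _ => 0
  L := fun _ => 0
  hz := Pool.Agent.H25.HX.H10.zero
  hg := by simp [Pool.Agent.H25.HX.g_zero]
  hL := MemLp.zero
  hDm := MemLp.zero
  hDu := fun ψ Ψ _ => by simp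

theorem GSt.inner_int {P : Par} {a b : E P.N → E P.N} (ha : MemLp a 2 volume)
    (hb : MemLp b 2 volume) : Integrable (fun x => (⟪a x, b x⟫ : ℝ)) volume := by
  have := ha.norm.integrable_mul hb.norm
  refine this.mono (ha.1.inner hb.1) (ae_of_all _ fun x => ?_)
  rw [Real.norm_eq_abs, Pi.mul_apply, norm_mul, norm_norm, norm_norm]
  exact abs_real_inner_le_norm _ _

theorem GSt.step {P : Par} {Ω : Set (E P.N)} (hp : 2 < P.p) {δ : ℝ} (hδ : 0 < δ) (s : GSt P Ω)
    {f : E P.N → ℝ} (hf : MemLp f 2 volume) : ∃ s' : GSt P Ω,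
      (∀ x, s'.u x = s.u x + δ * s'.z x) ∧ (∀ x, s'.Du x = s.Du x + δ • s'.Dz x) ∧
      (∀ x, s'.L x = f x - g P.p (s'.z x) - (s'.z x - s.z x) / δ) := by
  set R : E P.N → ℝ := fun x => s.z x + δ * f x - δ * s.L x with hR
  have mR : MemLp R 2 volume := (s.hz.1.add (hf.const_mul δ)).sub (s.hL.const_mul δ)
  obtain ⟨v, V, h1, h2, -, h4⟩ :=
    Pool.Agent.H25.HX.one_step (Ω := Ω) (a := 1) hp one_pos hδ mR
  have mL : MemLp (fun x => f x - g P.p (v x) - (v x - s.z x) / δ) 2 volume := by
    have := (hf.sub h2).sub ((h1.1.sub s.hz.1).const_mul (1 / δ))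
    refine this.ae_eq (ae_of_all _ fun x => ?_)
    simp only [Pi.sub_apply]
    ring
  refine ⟨{ u := fun x => s.u x + δ * v x
            Du := fun x => s.Du x + δ • V x
            z := v
            Dz := V
            L := fun x => f x - g P.p (v x) - (v x - s.z x) / δ
            hz := h1
            hg := h2
            hL := mL
            hDm := s.hDm.add (h1.2.1.const_smul δ)
            hDu := ?_ }, fun x => rfl, fun x => rfl, fun x => rfl⟩
  intro ψ Ψ hψ
  have e1 := h4 ψ Ψ hψ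
  have e2 := s.hDu ψ Ψ hψ
  have i1 : Integrable (fun x => (⟪s.Du x, Ψ x⟫ : ℝ)) volume := GSt.inner_int s.hDm hψ.2.1
  have i2 : Integrable (fun x => (⟪V x, Ψ x⟫ : ℝ)) volume := GSt.inner_int h1.2.1 hψ.2.1
  have e3 : ∫ x, ⟪s.Du x + δ • V x, Ψ x⟫ =
      (∫ x, ⟪s.Du x, Ψ x⟫) + δ * ∫ x, ⟪V x, Ψ x⟫ := by
    rw [← integral_const_mul, ← integral_add i1 (i2.const_mul δ)]
    refine integral_congr_ae (ae_of_all _ fun x => ?_)
    simp only
    rw [inner_add_left, real_inner_smul_left]
  have j1 : Integrable (fun x => s.z x * ψ x) volume := s.hz.1.integrable_mul hψ.1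
  have j2 : Integrable (fun x => f x * ψ x) volume := hf.integrable_mul hψ.1
  have j3 : Integrable (fun x => s.L x * ψ x) volume := s.hL.integrable_mul hψ.1
  have j4 : Integrable (fun x => g P.p (v x) * ψ x) volume := h2.integrable_mul hψ.1
  have j5 : Integrable (fun x => v x * ψ x) volume := h1.1.integrable_mul hψ.1
  have e4 : ∫ x, R x * ψ x = (∫ x, s.z x * ψ x) + δ * (∫ x, f x * ψ x) -
      δ * ∫ x, s.L x * ψ x := by
    rw [← integral_const_mul, ← integral_const_mul, ← integral_add j1 (j2.const_mul δ)]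
    rw [← integral_sub (f := fun x => s.z x * ψ x + δ * (f x * ψ x))
      (j1.add (j2.const_mul δ)) (j3.const_mul δ)]
    refine integral_congr_ae (ae_of_all _ fun x => ?_)
    simp only [hR]
    ring
  have e5 : ∫ x, (f x - g P.p (v x) - (v x - s.z x) / δ) * ψ x =
      (∫ x, f x * ψ x) - (∫ x, g P.p (v x) * ψ x) -
        ((∫ x, v x * ψ x) - ∫ x, s.z x * ψ x) / δ := by
    rw [← integral_sub j2 j4, ← integral_sub j5 j1, ← integral_div]
    rw [← integral_sub (f := fun x => f x * ψ x - g P.p (v x) * ψ x)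
      (g := fun x => (v x * ψ x - s.z x * ψ x) / δ) (j2.sub j4) ((j5.sub j1).div_const δ)]
    refine integral_congr_ae (ae_of_all _ fun x => ?_)
    simp only
    ring
  rw [e3, e5, e2]
  rw [e4] at e1
  field_simp
  linear_combination e1

/-- existence of the discrete solution -/
theorem exists_sol_aux (P : Par) (hp : 2 < P.p) (Ω : Set (E P.N)) {δ : ℝ} (hδ : 0 < δ)
    (hδ1 : δ ≤ 1) (f : ℕ → E P.N → ℝ) (hf : ∀ n, MemLp (f n) 2 volume)
    (hfs : ∀ n, ∀ x, x ∉ Ω → f n x = 0) (hf0 : ∀ x, f 0 x = 0) :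
    ∃ S : Sol P Ω, S.δ = δ ∧ S.f = f := by
  choose nx h1 h2 h3 using fun (s : GSt P Ω) (F : {F : E P.N → ℝ // MemLp F 2 volume}) =>
    GSt.step hp hδ s F.2
  let st : ℕ → GSt P Ω := fun n => Nat.rec (GSt.zero P Ω)
    (fun n s => nx s ⟨f (n + 1), hf (n + 1)⟩) n
  have hst : ∀ n, st (n + 1) = nx (st n) ⟨f (n + 1), hf (n + 1)⟩ := fun n => rfl
  refine ⟨{ δ := δ
            u := fun n => (st n).u
            Du := fun n => (st n).Du
            z := fun n => (st n).z
            Dz := fun n => (st n).Dz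
            f := f
            δ_pos := hδ
            δ_le := hδ1
            hz := fun n => (st n).hz
            hg := fun n => (st n).hg
            hf := hf
            hfs := hfs
            u_zero := fun x => rfl
            Du_zero := fun x => rfl
            z_zero := fun x => rfl
            Dz_zero := fun x => rfl
            f_zero := hf0
            u_succ := fun n x => ?_
            Du_succ := fun n x => ?_
            eqn := fun n ψ Ψ hψ => ?_ }, rfl, rfl⟩
  · rw [hst]
    exact h1 _ _ x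
  · rw [hst]
    exact h2 _ _ x
  · have e1 := (st (n + 1)).hDu ψ Ψ hψ
    rw [e1]
    refine integral_congr_ae (ae_of_all _ fun x => ?_)
    simp only
    rw [hst, h3]

end Pool.Agent.H15.Hx
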