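import Pool.Agent.H15.Hx.Defs
import Pool.Agent.H25.HX.ExistC

/-! G2: contraction estimate between two discrete solutions with different forces. -/

set_option autoImplicit false

open MeasureTheory Set Filter Topology
open scoped RealInnerProductSpace
open Pool.Agent.H25.HX (E g Tst H10)

noncomputable section

namespace Pool.Agent.H15.Hx

theorem g2_young {p : ℝ} (hp : 2 < p) {ε : ℝ} (hε : 0 < ε) : ∃ C : ℝ, 0 < C ∧ ∀ a b : ℝ,
    |a| * |b| ≤ ε * |a| ^ p + C * |b| ^ (p / (p - 1)) := by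
  have hp0 : 0 < p := by linarith
  have hpq : p.HolderConjugate (p / (p - 1)) :=
    Real.HolderConjugate.conjExponent (by linarith : 1 < p)
  have hq0 : 0 < p / (p - 1) := div_pos hp0 (by linarith)
  set c : ℝ := ε ^ (1 / p) with hc
  have hc0 : 0 < c := Real.rpow_pos_of_pos hε _
  refine ⟨c⁻¹ ^ (p / (p - 1)), by positivity, fun a b => ?_⟩
  have h1 := Real.young_inequality_of_nonneg (mul_nonneg hc0.le (abs_nonneg a))
    (mul_nonneg (inv_nonneg.2 hc0.le) (abs_nonneg b)) hpq
  have h2 : c * |a| * (c⁻¹ * |b|) = |a| * |b| := by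
    field_simp
  have h3 : (c * |a|) ^ p = ε * |a| ^ p := by
    rw [Real.mul_rpow hc0.le (abs_nonneg a), hc, ← Real.rpow_mul hε.le, one_div,
      inv_mul_cancel₀ hp0.ne', Real.rpow_one]
  have h4 : (c⁻¹ * |b|) ^ (p / (p - 1)) = c⁻¹ ^ (p / (p - 1)) * |b| ^ (p / (p - 1)) :=
    Real.mul_rpow (inv_nonneg.2 hc0.le) (abs_nonneg b)
  rw [h2, h3, h4] at h1
  have h5 : ε * |a| ^ p / p ≤ ε * |a| ^ p := by
    apply div_le_self (by positivity) (by linarith)
  have h6 : c⁻¹ ^ (p / (p - 1)) * |b| ^ (p / (p - 1)) / (p / (p - 1)) ≤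
      c⁻¹ ^ (p / (p - 1)) * |b| ^ (p / (p - 1)) := by
    apply div_le_self (by positivity)
    rw [le_div_iff₀ (by linarith)]
    linarith
  linarith

/-- `|f|^q` is integrable -/
theorem fq_int {N : ℕ} {q R : ℝ} (hq0 : 0 ≤ q) (hq : q ≤ 2) {f : E N → ℝ}
    (hf : MemLp f 2 volume) (hs : ∀ x, x ∉ Metric.ball (0 : E N) R → f x = 0) (hq1 : 0 < q) :
    Integrable (fun x => |f x| ^ q) volume := by
  have i1 : Integrable ((Metric.ball (0 : E N) R).indicator fun _ => (1 : ℝ)) volume :=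
    (integrable_indicator_iff measurableSet_ball).2
      (integrableOn_const (hs := measure_ball_lt_top.ne))
  refine Integrable.mono' ((Pool.Agent.H25.HX.sq_int hf).add i1)
    (Pool.Agent.H25.HX.meas_abs_rpow hq0 hf.1) (ae_of_all _ fun x => ?_)
  rw [Real.norm_of_nonneg (Real.rpow_nonneg (abs_nonneg _) _)]
  simp only [Pi.add_apply]
  by_cases hx : x ∈ Metric.ball (0 : E N) R
  · rw [indicator_of_mem hx]
    rcases le_total |f x| 1 with h | h
    · have := Real.rpow_le_one (abs_nonneg (f x)) h hq0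
      nlinarith [sq_nonneg (f x)]
    · have h1 : |f x| ^ q ≤ |f x| ^ (2 : ℝ) := Real.rpow_le_rpow_of_exponent_le h hq
      rw [Real.rpow_two, sq_abs] at h1
      linarith
  · rw [hs x hx, abs_zero, Real.zero_rpow hq1.ne', indicator_of_notMem hx]
    simp

theorem q_bounds {P : Par} (hp : 2 < P.p) : 1 < P.q ∧ P.q < 2 := by
  constructor
  · rw [Par.q, lt_div_iff₀ (by linarith)]
    linarith
  · rw [Par.q, div_lt_iff₀ (by linarith)]
    linarith

/-- contraction estimate -/
theorem contract (P : Par) (hp : 2 < P.p) : ∃ C : ℝ, 0 < C ∧ ∀ (Ω : Set (E P.N)) (R : ℝ),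
    Ω ⊆ Metric.ball 0 R → ∀ S S' : Sol P Ω, S.δ = S'.δ → ∀ n : ℕ,
      ∫ x, (‖S.Du n x - S'.Du n x‖ ^ 2 + (S.z n x - S'.z n x) ^ 2) ≤
        C * (S.δ * ∑ j ∈ Finset.range n, ∫ x, |S.f (j + 1) x - S'.f (j + 1) x| ^ P.q) := by
  obtain ⟨C, hC, hY⟩ := g2_young hp (Real.rpow_pos_of_pos (by norm_num : (0 : ℝ) < 2) (2 - P.p))
  refine ⟨2 * C, by positivity, ?_⟩
  intro Ω R hΩ S S' hδ
  have hδ0 := S.δ_pos
  -- memberships
  have mDu : ∀ (T : Sol P Ω) (n : ℕ), MemLp (T.Du n) 2 volume := by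
    intro T n
    induction n with
    | zero =>
      have : T.Du 0 = fun _ => 0 := funext T.Du_zero
      rw [this]
      exact MemLp.zero
    | succ n ih =>
      have : T.Du (n + 1) = fun x => T.Du n x + T.δ • T.Dz (n + 1) x := funext (T.Du_succ n)
      rw [this]
      exact ih.add ((T.hz (n + 1)).2.1.const_smul T.δ)
  set W : ℕ → E P.N → E P.N := fun n x => S.Du n x - S'.Du n x with hW
  set a : ℕ → E P.N → ℝ := fun n x => S.z n x - S'.z n x with ha
  have mW : ∀ n, MemLp (W n) 2 volume := fun n => (mDu S n).sub (mDu S' n)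
  have ma : ∀ n, MemLp (a n) 2 volume := fun n => (S.hz n).1.sub (S'.hz n).1
  have step : ∀ n, ∫ x, (‖W (n + 1) x‖ ^ 2 + a (n + 1) x ^ 2) ≤
      (∫ x, (‖W n x‖ ^ 2 + a n x ^ 2)) +
        2 * C * (S.δ * ∫ x, |S.f (n + 1) x - S'.f (n + 1) x| ^ P.q) := by
    intro n
    have hψ : H10 Ω (a (n + 1)) (fun x => S.Dz (n + 1) x - S'.Dz (n + 1) x) :=
      (S.hz (n + 1)).sub (S'.hz (n + 1))
    have e1 := S.eqn n _ _ hψ
    have e2 := S'.eqn n _ _ hψ
    rw [← hδ] at e2
    set A : E P.N → E P.N := fun x => S.Dz (n + 1) x - S'.Dz (n + 1) x with hA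
    set G : E P.N → ℝ := fun x => g P.p (S.z (n + 1) x) - g P.p (S'.z (n + 1) x) with hG
    set F : E P.N → ℝ := fun x => S.f (n + 1) x - S'.f (n + 1) x with hF
    have mG : MemLp G 2 volume := (S.hg (n + 1)).sub (S'.hg (n + 1))
    have mF : MemLp F 2 volume := (S.hf (n + 1)).sub (S'.hf (n + 1))
    have mA : MemLp A 2 volume := hψ.2.1
    have iIn : ∀ {b c : E P.N → E P.N}, MemLp b 2 volume → MemLp c 2 volume →
        Integrable (fun x => (⟪b x, c x⟫ : ℝ)) volume := by
      intro b c hb hc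
      have := hb.norm.integrable_mul hc.norm
      refine this.mono (hb.1.inner hc.1) (ae_of_all _ fun x => ?_)
      rw [Real.norm_eq_abs, Pi.mul_apply, norm_mul, norm_norm, norm_norm]
      exact abs_real_inner_le_norm _ _
    have i1 := iIn (mDu S (n + 1)) mA
    have i2 := iIn (mDu S' (n + 1)) mA
    have mR : ∀ T : Sol P Ω, MemLp (fun x => T.f (n + 1) x - g P.p (T.z (n + 1) x) -
        (T.z (n + 1) x - T.z n x) / S.δ) 2 volume := by
      intro T
      have := ((T.hf (n + 1)).sub (T.hg (n + 1))).sub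
        (((T.hz (n + 1)).1.sub (T.hz n).1).const_mul (1 / S.δ))
      refine this.ae_eq (ae_of_all _ fun x => ?_)
      simp only [Pi.sub_apply]
      ring
    have i3 : Integrable (fun x => (S.f (n + 1) x - g P.p (S.z (n + 1) x) -
        (S.z (n + 1) x - S.z n x) / S.δ) * a (n + 1) x) volume :=
      (mR S).integrable_mul (ma (n + 1))
    have i4 : Integrable (fun x => (S'.f (n + 1) x - g P.p (S'.z (n + 1) x) -
        (S'.z (n + 1) x - S'.z n x) / S.δ) * a (n + 1) x) volume :=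
      (mR S').integrable_mul (ma (n + 1))
    have e3 : ∫ x, ⟪W (n + 1) x, A x⟫ =
        ∫ x, (F x - G x - (a (n + 1) x - a n x) / S.δ) * a (n + 1) x := by
      have h1 : ∫ x, ⟪W (n + 1) x, A x⟫ = (∫ x, ⟪S.Du (n + 1) x, A x⟫) -
          ∫ x, ⟪S'.Du (n + 1) x, A x⟫ := by
        rw [← integral_sub i1 i2]
        refine integral_congr_ae (ae_of_all _ fun x => ?_)
        simp only [hW, inner_sub_left]
      rw [h1, e1, e2, ← integral_sub i3 i4]
      refine integral_congr_ae (ae_of_all _ fun x => ?_)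
      simp only [hF, hG, ha]
      ring
    have hWs : ∀ x, W (n + 1) x - W n x = S.δ • A x := by
      intro x
      simp only [hW, hA, S.Du_succ, S'.Du_succ, ← hδ, smul_sub]
      abel
    have j1 : Integrable (fun x => ‖W (n + 1) x‖ ^ 2 + a (n + 1) x ^ 2) volume :=
      (Pool.Agent.H25.HX.sq_norm_integrable (mW (n + 1))).add
        (Pool.Agent.H25.HX.sq_int (ma (n + 1)))
    have j2 : Integrable (fun x => ‖W n x‖ ^ 2 + a n x ^ 2) volume :=
      (Pool.Agent.H25.HX.sq_norm_integrable (mW n)).add (Pool.Agent.H25.HX.sq_int (ma n))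
    have j3 : Integrable (fun x => (⟪W (n + 1) x, A x⟫ : ℝ)) volume := iIn (mW (n + 1)) mA
    have mB : MemLp (fun x => F x - G x - (a (n + 1) x - a n x) / S.δ) 2 volume := by
      have := (mF.sub mG).sub (((ma (n + 1)).sub (ma n)).const_mul (1 / S.δ))
      refine this.ae_eq (ae_of_all _ fun x => ?_)
      simp only [Pi.sub_apply]
      ring
    have j4 : Integrable (fun x => (F x - G x - (a (n + 1) x - a n x) / S.δ) * a (n + 1) x)
      volume := mB.integrable_mul (ma (n + 1))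
    have hb := q_bounds hp
    have jF : Integrable (fun x => |F x| ^ P.q) volume := by
      refine fq_int (R := R) (by linarith) hb.2.le mF ?_ (by linarith)
      intro x hx
      have hx' : x ∉ Ω := fun h => hx (hΩ h)
      simp only [hF]
      rw [S.hfs _ x hx', S'.hfs _ x hx', sub_zero]
    -- pointwise inequality
    have hpt : ∀ x, (‖W (n + 1) x‖ ^ 2 + a (n + 1) x ^ 2) - (‖W n x‖ ^ 2 + a n x ^ 2) ≤
        2 * S.δ * ⟪W (n + 1) x, A x⟫ - 2 * S.δ *
          ((F x - G x - (a (n + 1) x - a n x) / S.δ) * a (n + 1) x) +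
          2 * C * S.δ * |F x| ^ P.q := by
      intro x
      have h1 : ‖W (n + 1) x‖ ^ 2 - ‖W n x‖ ^ 2 ≤ 2 * S.δ * ⟪W (n + 1) x, A x⟫ := by
        have h2 : (2 * S.δ * ⟪W (n + 1) x, A x⟫ : ℝ) =
            2 * ⟪W (n + 1) x, W (n + 1) x - W n x⟫ := by
          rw [hWs, real_inner_smul_right]
          ring
        rw [h2, inner_sub_right, real_inner_self_eq_norm_sq]
        have h3 := norm_sub_sq_real (W (n + 1) x) (W n x)
        have h4 := sq_nonneg ‖W (n + 1) x - W n x‖
        linarith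
      have h2 : a (n + 1) x ^ 2 - a n x ^ 2 ≤
          2 * ((a (n + 1) x - a n x) * a (n + 1) x) := by
        nlinarith [sq_nonneg (a (n + 1) x - a n x)]
      have h3 : F x * a (n + 1) x ≤ G x * a (n + 1) x + C * |F x| ^ P.q := by
        have h4 := hY (a (n + 1) x) (F x)
        have h5 := Pool.Agent.H25.HX.X_ge hp (S.z (n + 1) x) (S'.z (n + 1) x)
        have h6 : F x * a (n + 1) x ≤ |a (n + 1) x| * |F x| := by
          rw [← abs_mul, mul_comm]
          exact le_abs_self _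
        simp only [hG, ha]
        have h7 : P.q = P.p / (P.p - 1) := rfl
        rw [h7]
        simp only [ha] at h4 h6
        linarith
      have h4 : 2 * S.δ * ((F x - G x - (a (n + 1) x - a n x) / S.δ) * a (n + 1) x) =
          2 * S.δ * (F x * a (n + 1) x) - 2 * S.δ * (G x * a (n + 1) x) -
            2 * ((a (n + 1) x - a n x) * a (n + 1) x) := by
        field_simp
      rw [h4]
      have h5 : 2 * S.δ * (F x * a (n + 1) x) ≤
          2 * S.δ * (G x * a (n + 1) x + C * |F x| ^ P.q) :=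
        mul_le_mul_of_nonneg_left h3 (by positivity)
      nlinarith
    have hint := integral_mono (j1.sub j2)
      (((j3.const_mul (2 * S.δ)).sub (j4.const_mul (2 * S.δ))).add
        (jF.const_mul (2 * C * S.δ))) hpt
    have e4 : ∫ x, ((fun x => ‖W (n + 1) x‖ ^ 2 + a (n + 1) x ^ 2) -
        fun x => ‖W n x‖ ^ 2 + a n x ^ 2) x =
        (∫ x, (‖W (n + 1) x‖ ^ 2 + a (n + 1) x ^ 2)) - ∫ x, (‖W n x‖ ^ 2 + a n x ^ 2) :=
      integral_sub j1 j2
    have e5 : ∫ x, (((fun x => 2 * S.δ * ⟪W (n + 1) x, A x⟫) - fun x => 2 * S.δ *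
        ((F x - G x - (a (n + 1) x - a n x) / S.δ) * a (n + 1) x)) +
          fun x => 2 * C * S.δ * |F x| ^ P.q) x =
        2 * S.δ * (∫ x, ⟪W (n + 1) x, A x⟫) - 2 * S.δ *
          (∫ x, (F x - G x - (a (n + 1) x - a n x) / S.δ) * a (n + 1) x) +
          2 * C * S.δ * ∫ x, |F x| ^ P.q := by
      rw [← integral_const_mul, ← integral_const_mul, ← integral_const_mul,
        ← integral_sub (j3.const_mul (2 * S.δ)) (j4.const_mul (2 * S.δ))]
      exact integral_add ((j3.const_mul (2 * S.δ)).sub (j4.const_mul (2 * S.δ)))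
        (jF.const_mul (2 * C * S.δ))
    rw [e4, e5, e3] at hint
    linarith
  intro n
  induction n with
  | zero =>
    have h1 : ∀ x, ‖S.Du 0 x - S'.Du 0 x‖ ^ 2 + (S.z 0 x - S'.z 0 x) ^ 2 = 0 := by
      intro x
      rw [S.Du_zero, S'.Du_zero, S.z_zero, S'.z_zero]
      simp
    simp [h1]
  | succ n ih =>
    have h1 := step n
    simp only [hW, ha] at h1
    rw [Finset.sum_range_succ]
    refine h1.trans ?_
    calc _ ≤ 2 * C * (S.δ * ∑ j ∈ Finset.range n,
          ∫ x, |S.f (j + 1) x - S'.f (j + 1) x| ^ P.q) +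
          2 * C * (S.δ * ∫ x, |S.f (n + 1) x - S'.f (n + 1) x| ^ P.q) := by
          gcongr
      _ = _ := by ring

end Pool.Agent.H15.Hx
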