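import Pool.Agent.H15.Hx.M03_Wt
import Pool.Agent.H25.HG.G2_Contr

/-! G3: truncation of the force and its cost; G4: Morrey bound of the truncated force. -/

set_option autoImplicit false

open MeasureTheory Set Filter Topology
open scoped RealInnerProductSpace
open Pool.Agent.H25.HX (E g Tst H10)

noncomputable section

namespace Pool.Agent.H15.Hx

/-- truncation at height `H` -/
def clip (H s : ℝ) : ℝ := max (-H) (min H s)

theorem clip_abs_le {H : ℝ} (hH : 0 ≤ H) (s : ℝ) : |clip H s| ≤ H := by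
  rw [clip, abs_le]
  exact ⟨le_max_left _ _, max_le (by linarith) (min_le_left _ _)⟩

theorem clip_of_le {H s : ℝ} (h : |s| ≤ H) : clip H s = s := by
  rw [clip, min_eq_right (abs_le.1 h).2, max_eq_right (abs_le.1 h).1]

theorem clip_le_self {H : ℝ} (hH : 0 ≤ H) (s : ℝ) : |clip H s| ≤ |s| := by
  rcases le_total |s| H with h | h
  · rw [clip_of_le h]
  · exact (clip_abs_le hH s).trans h

theorem clip_zero {H : ℝ} (hH : 0 ≤ H) : clip H 0 = 0 := clip_of_le (by simpa using hH)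

theorem clip_cont (H : ℝ) : Continuous (clip H) := by
  unfold clip
  fun_prop

theorem sub_clip_le {H : ℝ} (hH : 0 ≤ H) (s : ℝ) : |s - clip H s| ≤ |s| := by
  rcases le_total |s| H with h | h
  · rw [clip_of_le h]
    simp
  · rcases le_total 0 s with hs | hs
    · rw [abs_of_nonneg hs] at h
      have : clip H s = H := by
        rw [clip, min_eq_left h, max_eq_right (by linarith)]
      rw [this, abs_of_nonneg (by linarith), abs_of_nonneg hs]
      linarith
    · rw [abs_of_nonpos hs] at h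
      have : clip H s = -H := by
        rw [clip, min_eq_right (by linarith), max_eq_left (by linarith)]
      rw [this, abs_of_nonpos (by linarith), abs_of_nonpos hs]
      linarith

theorem clip_cost {H q : ℝ} (hH : 0 < H) (hq0 : 0 < q) (hq : q ≤ 2) (s : ℝ) :
    |s - clip H s| ^ q ≤ H ^ (q - 2) * s ^ 2 := by
  rcases le_or_gt |s| H with h | h
  · rw [clip_of_le h, sub_self, abs_zero, Real.zero_rpow hq0.ne']
    positivity
  · have hs : 0 < |s| := hH.trans h
    have h1 : |s - clip H s| ^ q ≤ |s| ^ q :=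
      Real.rpow_le_rpow (abs_nonneg _) (sub_clip_le hH.le s) hq0.le
    have h2 : |s| ^ q = |s| ^ (q - 2) * s ^ 2 := by
      rw [← sq_abs s, ← Real.rpow_natCast |s| 2, ← Real.rpow_add hs]
      congr 1
      push_cast
      ring
    have h3 : |s| ^ (q - 2) ≤ H ^ (q - 2) :=
      Real.rpow_le_rpow_of_nonpos hH h.le (by linarith)
    rw [h2] at h1
    exact h1.trans (mul_le_mul_of_nonneg_right h3 (sq_nonneg s))

theorem cost_step {d : ℝ} (hd : 0 < d) {δ : ℝ} (hδ : 0 < δ) (hδ1 : δ ≤ 1) {x : ℝ} (hx : 0 ≤ x) :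
    δ * (1 + x) ^ (-(1 + d)) ≤
      (2 : ℝ) ^ (1 + d) / d * ((1 + x) ^ (-d) - (1 + (x + δ)) ^ (-d)) := by
  have hy0 : 0 < 1 + x := by linarith
  set y : ℝ := 1 + (x + δ) with hy
  have hy1 : 0 < y := by positivity
  have hlt : δ / y < 1 := by
    rw [div_lt_one hy1]
    linarith
  have hu0 : 0 < 1 - δ / y := by linarith
  have h1 : 1 + d * (δ / y) ≤ (1 - δ / y) ^ (-d) := by
    rw [Real.rpow_def_of_pos hu0]
    have h2 : Real.log (1 - δ / y) ≤ -(δ / y) := by
      have := Real.log_le_sub_one_of_pos hu0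
      linarith
    have h3 : d * (δ / y) ≤ Real.log (1 - δ / y) * -d := by nlinarith
    have h4 := Real.add_one_le_exp (d * (δ / y))
    have h5 := Real.exp_le_exp.2 h3
    linarith
  have h2 : (1 + x) ^ (-d) = y ^ (-d) * (1 - δ / y) ^ (-d) := by
    rw [← Real.mul_rpow hy1.le hu0.le]
    congr 1
    field_simp
    rw [hy]
    ring
  have hyd : 0 < y ^ (-d) := Real.rpow_pos_of_pos hy1 _
  have h3 : y ^ (-d) * (d * (δ / y)) ≤ (1 + x) ^ (-d) - y ^ (-d) := by
    rw [h2]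
    nlinarith
  have h4 : y ^ (-d) * (d * (δ / y)) = d * δ * y ^ (-(1 + d)) := by
    have : y ^ (-(1 + d)) = y ^ (-d) / y := by
      rw [show -(1 + d) = -d - 1 by ring, Real.rpow_sub_one hy1.ne']
    rw [this]
    ring
  rw [h4] at h3
  have h5 : (1 + x) ^ (-(1 + d)) ≤ (2 : ℝ) ^ (1 + d) * y ^ (-(1 + d)) := by
    have h6 : y ≤ 2 * (1 + x) := by linarith
    have h7 : (2 * (1 + x)) ^ (-(1 + d)) ≤ y ^ (-(1 + d)) :=
      Real.rpow_le_rpow_of_nonpos hy1 h6 (by linarith)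
    rw [Real.mul_rpow (by norm_num) hy0.le] at h7
    have h8 : (2 : ℝ) ^ (1 + d) * (2 : ℝ) ^ (-(1 + d)) = 1 := by
      rw [← Real.rpow_add (by norm_num), add_neg_cancel, Real.rpow_zero]
    have h9 := mul_le_mul_of_nonneg_left h7 (by positivity : (0 : ℝ) ≤ 2 ^ (1 + d))
    rwa [← mul_assoc, h8, one_mul] at h9
  have h6 : δ * (1 + x) ^ (-(1 + d)) ≤ δ * ((2 : ℝ) ^ (1 + d) * y ^ (-(1 + d))) :=
    mul_le_mul_of_nonneg_left h5 hδ.le
  have h7 : (2 : ℝ) ^ (1 + d) / d * (d * δ * y ^ (-(1 + d))) ≤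
      (2 : ℝ) ^ (1 + d) / d * ((1 + x) ^ (-d) - y ^ (-d)) :=
    mul_le_mul_of_nonneg_left h3 (by positivity)
  refine h6.trans (le_trans (le_of_eq ?_) h7)
  field_simp

/-- the total cost -/
theorem cost_sum {d : ℝ} (hd : 0 < d) {δ : ℝ} (hδ : 0 < δ) (hδ1 : δ ≤ 1) (K : ℕ) :
    ∑ i ∈ Finset.range K, δ * (1 + i * δ) ^ (-(1 + d)) ≤ (2 : ℝ) ^ (1 + d) / d := by
  have h1 : ∀ K : ℕ, ∑ i ∈ Finset.range K, δ * (1 + i * δ) ^ (-(1 + d)) ≤
      (2 : ℝ) ^ (1 + d) / d * (1 - (1 + K * δ) ^ (-d)) := by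
    intro K
    induction K with
    | zero => simp
    | succ n ih =>
      rw [Finset.sum_range_succ]
      have h2 := cost_step hd hδ hδ1 (x := n * δ) (by positivity)
      have h3 : (1 + (((n + 1 : ℕ) : ℝ)) * δ) = 1 + (n * δ + δ) := by
        push_cast
        ring
      rw [h3]
      calc _ ≤ (2 : ℝ) ^ (1 + d) / d * (1 - (1 + n * δ) ^ (-d)) +
            (2 : ℝ) ^ (1 + d) / d * ((1 + n * δ) ^ (-d) - (1 + (n * δ + δ)) ^ (-d)) :=
            add_le_add ih h2
        _ = _ := by ring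
  refine (h1 K).trans ?_
  have h2 : 0 ≤ (1 + (K : ℝ) * δ) ^ (-d) := Real.rpow_nonneg (by positivity) _
  have h3 : 0 ≤ (2 : ℝ) ^ (1 + d) / d := by positivity
  nlinarith

/-- Morrey bound of the truncated force -/
theorem force_bound (P : Par) (hp : 2 < P.p) (hlam : 0 < P.lam) (hll : P.lam < P.lam')
    (hl' : P.lam' < P.N) (M R : ℝ) (hR : 1 ≤ R) :
    ∃ (θ C : ℝ), 0 ≤ θ ∧ θ < 1 ∧ 0 < C ∧ ∀ (f : E P.N → ℝ) (H : ℝ), 1 ≤ H →
      MemLp f 2 volume → (∫ x, f x ^ 2) ≤ M ^ 2 → (∀ x, |f x| ≤ H) →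
      (∀ x, x ∉ Metric.ball (0 : E P.N) R → f x = 0) → ∀ (x₀ : E P.N) (r : ℝ), Adm R x₀ r →
      I0 P x₀ r (fun x => |f x| ^ P.q) ≤ C * H ^ (P.q * θ) * r ^ P.lam := by
  obtain ⟨hq1, hq2⟩ := q_bounds hp
  have hN0 : (0 : ℝ) < P.N := by linarith
  set m : ℝ := max (P.lam / P.N) (1 - P.q / 2) with hm
  have hm0 : 0 < m := lt_max_of_lt_left (div_pos hlam hN0)
  have hm1 : m < 1 := by
    apply max_lt
    · rw [div_lt_one hN0]
      linarith
    · linarith
  have hmN : P.lam ≤ P.N * m := by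
    have := le_max_left (P.lam / P.N) (1 - P.q / 2)
    rw [← hm, div_le_iff₀ hN0] at this
    linarith
  have hmq : 1 - P.q / 2 ≤ m := le_max_right _ _
  set a : ℝ := P.N * m - P.lam with ha
  have ha0 : 0 ≤ a := by linarith
  set θ : ℝ := 1 - 2 * (1 - m) / P.q with hθ
  have hq0 : 0 < P.q := by linarith
  have hθ0 : 0 ≤ θ := by
    rw [hθ, sub_nonneg, div_le_one hq0]
    linarith
  have hθ1 : θ < 1 := by
    have : 0 < 2 * (1 - m) / P.q := div_pos (by linarith) hq0
    linarith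
  have hqθ : P.q - P.q * θ = 2 * (1 - m) := by
    rw [hθ]
    field_simp
    ring
  have hint : (P.N : ℝ) < (P.lam' + a) / m := by
    rw [lt_div_iff₀ hm0]
    linarith
  obtain ⟨C0, hC0, hw⟩ := wt_integral P.N ((P.lam' + a) / m) hint
  refine ⟨θ, (5 * R ^ 2) ^ (a / 2) * (C0 + M ^ 2), hθ0, hθ1, by positivity, ?_⟩
  intro f H hH hf hM hfH hfs x₀ r hA
  obtain ⟨hA1, hr0, hrR⟩ := hA
  -- pointwise
  set t : ℝ := r ^ (-(P.N * m * (1 - m)) : ℝ) with ht
  have ht0 : 0 < t := Real.rpow_pos_of_pos hr0 _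
  have hH0 : 0 < H := by linarith
  have hpt : ∀ x, wt P.lam' x₀ r x * |f x| ^ P.q ≤
      (5 * R ^ 2 / r ^ 2) ^ (a / 2) * H ^ (P.q * θ) *
        (t ^ (1 / m) * wt ((P.lam' + a) / m) x₀ r x + t ^ (-(1 / (1 - m))) * f x ^ 2) := by
    intro x
    by_cases hx : x ∈ Metric.ball (0 : E P.N) R
    · have hxR : ‖x‖ < R := by simpa using hx
      set ρ : ℝ := 1 + ‖x - x₀‖ ^ 2 / r ^ 2 with hρ
      have hρ1 : 1 ≤ ρ := by
        have : 0 ≤ ‖x - x₀‖ ^ 2 / r ^ 2 := by positivity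
        linarith
      have hρ0 : 0 < ρ := by linarith
      have hρ2 : ρ ≤ 5 * R ^ 2 / r ^ 2 := by
        rw [hρ, le_div_iff₀ (by positivity), add_mul, one_mul, div_mul_cancel₀ _ (by positivity)]
        have h1 : ‖x - x₀‖ ≤ 2 * R := (norm_sub_le _ _).trans (by linarith)
        have h2 : ‖x - x₀‖ ^ 2 ≤ (2 * R) ^ 2 := pow_le_pow_left₀ (norm_nonneg _) h1 2
        nlinarith
      -- weights
      have w1 : wt P.lam' x₀ r x ≤ (5 * R ^ 2 / r ^ 2) ^ (a / 2) * ρ ^ (-((P.lam' + a) / 2)) := by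
        have h1 : wt P.lam' x₀ r x = ρ ^ (a / 2) * ρ ^ (-((P.lam' + a) / 2)) := by
          rw [← Real.rpow_add hρ0, wt]
          congr 1
          ring
        rw [h1]
        exact mul_le_mul_of_nonneg_right (Real.rpow_le_rpow hρ0.le hρ2 (by linarith))
          (Real.rpow_nonneg hρ0.le _)
      have w2 : (ρ ^ (-((P.lam' + a) / 2))) ^ (1 / m) = wt ((P.lam' + a) / m) x₀ r x := by
        rw [← Real.rpow_mul hρ0.le, wt]
        congr 1
        field_simp
      -- force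
      have f1 : |f x| ^ P.q ≤ H ^ (P.q * θ) * |f x| ^ (2 * (1 - m)) := by
        rcases eq_or_ne (f x) 0 with h0 | h0
        · rw [h0, abs_zero, Real.zero_rpow hq0.ne']
          positivity
        · have hf0 : 0 < |f x| := abs_pos.2 h0
          have h1 : |f x| ^ P.q = |f x| ^ (P.q * θ) * |f x| ^ (2 * (1 - m)) := by
            rw [← Real.rpow_add hf0]
            congr 1
            linarith
          rw [h1]
          exact mul_le_mul_of_nonneg_right
            (Real.rpow_le_rpow hf0.le (hfH x) (mul_nonneg hq0.le hθ0))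
            (Real.rpow_nonneg hf0.le _)
      -- Young
      have hconj : (1 / m).HolderConjugate (1 / (1 - m)) := by
        rw [Real.holderConjugate_iff]
        constructor
        · rw [lt_div_iff₀ hm0]
          linarith
        · simp
      have y1 := Real.young_inequality_of_nonneg
        (mul_nonneg ht0.le (Real.rpow_nonneg hρ0.le (-((P.lam' + a) / 2))))
        (mul_nonneg (inv_nonneg.2 ht0.le) (Real.rpow_nonneg (abs_nonneg (f x)) (2 * (1 - m))))
        hconj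
      have y2 : t * ρ ^ (-((P.lam' + a) / 2)) * (t⁻¹ * |f x| ^ (2 * (1 - m))) =
          ρ ^ (-((P.lam' + a) / 2)) * |f x| ^ (2 * (1 - m)) := by
        field_simp
      have y3 : (t * ρ ^ (-((P.lam' + a) / 2))) ^ (1 / m) =
          t ^ (1 / m) * wt ((P.lam' + a) / m) x₀ r x := by
        rw [Real.mul_rpow ht0.le (Real.rpow_nonneg hρ0.le _), w2]
      have y4 : (t⁻¹ * |f x| ^ (2 * (1 - m))) ^ (1 / (1 - m)) =
          t ^ (-(1 / (1 - m))) * f x ^ 2 := by
        rw [Real.mul_rpow (inv_nonneg.2 ht0.le) (Real.rpow_nonneg (abs_nonneg _) _),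
          ← Real.rpow_mul (abs_nonneg _), ← Real.rpow_neg_one, ← Real.rpow_mul ht0.le]
        have e1 : 2 * (1 - m) * (1 / (1 - m)) = ((2 : ℕ) : ℝ) := by
          have : 1 - m ≠ 0 := by linarith
          field_simp
          norm_num
        rw [e1, Real.rpow_natCast, sq_abs]
        congr 2
        ring
      rw [y2, y3, y4] at y1
      have hX : 0 ≤ t ^ (1 / m) * wt ((P.lam' + a) / m) x₀ r x := by
        rw [← y3]
        positivity
      have hY : 0 ≤ t ^ (-(1 / (1 - m))) * f x ^ 2 := by positivity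
      have y5 : ρ ^ (-((P.lam' + a) / 2)) * |f x| ^ (2 * (1 - m)) ≤
          t ^ (1 / m) * wt ((P.lam' + a) / m) x₀ r x + t ^ (-(1 / (1 - m))) * f x ^ 2 := by
        have a1 : t ^ (1 / m) * wt ((P.lam' + a) / m) x₀ r x / (1 / m) ≤
            t ^ (1 / m) * wt ((P.lam' + a) / m) x₀ r x := by
          apply div_le_self hX
          rw [le_div_iff₀ hm0]
          linarith
        have a2 : t ^ (-(1 / (1 - m))) * f x ^ 2 / (1 / (1 - m)) ≤
            t ^ (-(1 / (1 - m))) * f x ^ 2 := by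
          apply div_le_self hY
          rw [le_div_iff₀ (by linarith)]
          linarith
        linarith
      calc wt P.lam' x₀ r x * |f x| ^ P.q
          ≤ ((5 * R ^ 2 / r ^ 2) ^ (a / 2) * ρ ^ (-((P.lam' + a) / 2))) *
            (H ^ (P.q * θ) * |f x| ^ (2 * (1 - m))) := by
            apply mul_le_mul w1 f1 (Real.rpow_nonneg (abs_nonneg _) _)
            positivity
        _ = (5 * R ^ 2 / r ^ 2) ^ (a / 2) * H ^ (P.q * θ) *
            (ρ ^ (-((P.lam' + a) / 2)) * |f x| ^ (2 * (1 - m))) := by ring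
        _ ≤ _ := mul_le_mul_of_nonneg_left y5 (by positivity)
    · rw [hfs x hx, abs_zero, Real.zero_rpow hq0.ne', mul_zero]
      have : 0 ≤ wt ((P.lam' + a) / m) x₀ r x := by
        rw [wt]
        positivity
      positivity
  -- integrate
  obtain ⟨iw, hwC⟩ := hw x₀ r hr0
  have if2 : Integrable (fun x => f x ^ 2) volume := Pool.Agent.H25.HX.sq_int hf
  have hcw : Continuous (wt P.lam' x₀ r) := wt_cont
  have iq : Integrable (fun x => |f x| ^ P.q) volume := fq_int hq0.le hq2.le hf hfs hq0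
  have iL : Integrable (fun x => wt P.lam' x₀ r x * |f x| ^ P.q) volume := by
    refine Integrable.mono' iq (hcw.aestronglyMeasurable.mul iq.1) (ae_of_all _ fun x => ?_)
    have h1 : 0 < wt P.lam' x₀ r x := wt_pos x
    have h2 : wt P.lam' x₀ r x ≤ 1 := wt_le_one (by linarith) x
    have h3 : 0 ≤ |f x| ^ P.q := Real.rpow_nonneg (abs_nonneg _) _
    rw [Real.norm_of_nonneg (mul_nonneg h1.le h3)]
    nlinarith
  have iR : Integrable (fun x => (5 * R ^ 2 / r ^ 2) ^ (a / 2) * H ^ (P.q * θ) *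
        (t ^ (1 / m) * wt ((P.lam' + a) / m) x₀ r x + t ^ (-(1 / (1 - m))) * f x ^ 2))
        volume := ((iw.const_mul _).add (if2.const_mul _)).const_mul _
  have h1 := integral_mono iL iR hpt
  have h2 : ∫ x, (5 * R ^ 2 / r ^ 2) ^ (a / 2) * H ^ (P.q * θ) *
        (t ^ (1 / m) * wt ((P.lam' + a) / m) x₀ r x + t ^ (-(1 / (1 - m))) * f x ^ 2) =
      (5 * R ^ 2 / r ^ 2) ^ (a / 2) * H ^ (P.q * θ) *
        (t ^ (1 / m) * (C0 * r ^ (P.N : ℝ)) + t ^ (-(1 / (1 - m))) * ∫ x, f x ^ 2) := by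
    rw [integral_const_mul, integral_add (iw.const_mul _) (if2.const_mul _),
      integral_const_mul, integral_const_mul, hwC]
  rw [h2] at h1
  have t1 : t ^ (1 / m) * (C0 * r ^ (P.N : ℝ)) = C0 * r ^ (P.N * m) := by
    rw [ht, ← Real.rpow_mul hr0.le]
    have e1 : -(P.N * m * (1 - m)) * (1 / m) = P.N * m - P.N := by
      field_simp
      ring
    rw [e1, Real.rpow_sub hr0]
    field_simp
  have t2 : t ^ (-(1 / (1 - m))) = r ^ (P.N * m) := by
    rw [ht, ← Real.rpow_mul hr0.le]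
    congr 1
    have : 1 - m ≠ 0 := by linarith
    field_simp
  rw [t1, t2] at h1
  have h3 : C0 * r ^ (P.N * m) + r ^ (P.N * m) * ∫ x, f x ^ 2 ≤
      (C0 + M ^ 2) * r ^ (P.N * m) := by
    have : 0 ≤ r ^ (P.N * m) := Real.rpow_nonneg hr0.le _
    nlinarith
  have h4 : (5 * R ^ 2 / r ^ 2) ^ (a / 2) = (5 * R ^ 2) ^ (a / 2) * r ^ (-a) := by
    rw [Real.div_rpow (by positivity) (by positivity), ← Real.rpow_natCast r 2,
      ← Real.rpow_mul hr0.le, Real.rpow_neg hr0.le]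
    push_cast
    rw [show (2 : ℝ) * (a / 2) = a by ring]
    rfl
  have h5 : r ^ (-a) * r ^ (P.N * m) = r ^ P.lam := by
    rw [← Real.rpow_add hr0]
    congr 1
    rw [ha]
    ring
  have h6 : I0 P x₀ r (fun x => |f x| ^ P.q) ≤ (5 * R ^ 2 / r ^ 2) ^ (a / 2) *
      H ^ (P.q * θ) * ((C0 + M ^ 2) * r ^ (P.N * m)) :=
    h1.trans (mul_le_mul_of_nonneg_left h3 (by positivity))
  refine h6.trans (le_of_eq ?_)
  rw [h4, ← h5]
  ring

end Pool.Agent.H15.Hx
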